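import Pool.Agent.Helper62.DSH.StB

/-!
# Project DSH, module LMJ: the limit of the Bochner inequality for forms
-/

set_option autoImplicit false
set_option maxSynthPendingDepth 3

open Set Filter Topology MeasureTheory
open Helper62.LH Helper62.DSH
open scoped ContDiff ENNReal

noncomputable section

namespace Pool.Agent.Helper12.DSH

theorem lmj_pick (M δ : ℝ) (hM : 0 ≤ M) (hδ : 0 < δ) : ∃ s : ℝ, 0 < s ∧ s ≤ 1 ∧ s * M ≤ δ := by
  refine ⟨δ / (M + δ), by positivity, ?_, ?_⟩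
  · rw [div_le_one (by positivity)]; linarith
  · rw [div_mul_eq_mul_div, div_le_iff₀ (by positivity)]; nlinarith

theorem lmj_int5 {n : ℕ} {μ : Measure (E n)} {a b c d e : E n → ℝ} (ha : Integrable a μ)
    (hb : Integrable b μ) (hc : Integrable c μ) (hd : Integrable d μ) (he : Integrable e μ)
    (r1 r2 r3 r4 r5 : ℝ) :
    Integrable (fun x => r1 * a x + r2 * b x + r3 * c x + r4 * d x + r5 * e x) μ ∧
    ∫ x, (r1 * a x + r2 * b x + r3 * c x + r4 * d x + r5 * e x) ∂μ =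
      r1 * (∫ x, a x ∂μ) + r2 * (∫ x, b x ∂μ) + r3 * (∫ x, c x ∂μ) + r4 * (∫ x, d x ∂μ) +
        r5 * (∫ x, e x ∂μ) := by
  have h1 := (ha.const_mul r1).add (hb.const_mul r2)
  have h2 := h1.add (hc.const_mul r3)
  have h3 := h2.add (hd.const_mul r4)
  have h4 := h3.add (he.const_mul r5)
  refine ⟨h4, ?_⟩
  have e4 := integral_add h3 (he.const_mul r5)
  have e3 := integral_add h2 (hd.const_mul r4)
  have e2 := integral_add h1 (hc.const_mul r3)
  have e1 := integral_add (ha.const_mul r1) (hb.const_mul r2)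
  simp only [Pi.add_apply] at e1 e2 e3 e4
  rw [e4, e3, e2, e1]
  simp only [integral_const_mul]

theorem lmj_int2 {n : ℕ} {μ : Measure (E n)} {a b : E n → ℝ} (ha : Integrable a μ)
    (hb : Integrable b μ) (r1 r2 : ℝ) :
    Integrable (fun x => r1 * a x + r2 * b x) μ ∧
    ∫ x, (r1 * a x + r2 * b x) ∂μ = r1 * (∫ x, a x ∂μ) + r2 * (∫ x, b x ∂μ) := by
  have h1 := (ha.const_mul r1).add (hb.const_mul r2)
  refine ⟨h1, ?_⟩
  have e1 := integral_add (ha.const_mul r1) (hb.const_mul r2)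
  rw [e1]
  simp only [integral_const_mul]

theorem lmj_q2_cont {n j : ℕ} : Continuous (fun t : Tn n j => q2 t) := by
  unfold q2 ipt
  fun_prop

theorem lmj_q2_zero {n j : ℕ} : q2 (0 : Tn n j) = 0 := by
  simp [q2, ipt]

/-- the gradient of the cut-off function -/
theorem lmj_grad {n : ℕ} {g : E n → Bl n} {x : E n} {F : Fin n → E n} (hF : Onb g x F)
    (l : E n →L[ℝ] ℝ) (k : ℝ) (hk : 0 ≤ k) (hl : ∀ v, |l v| ≤ k * nr g x v) :
    ∑ a, (l (F a)) ^ 2 ≤ k ^ 2 := by
  obtain ⟨w, hw⟩ : ∃ w, w = ∑ a, l (F a) • F a := ⟨_, rfl⟩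
  obtain ⟨A, hA⟩ : ∃ A, A = ∑ a, (l (F a)) ^ 2 := ⟨_, rfl⟩
  have hA0 : 0 ≤ A := by
    rw [hA]
    exact Finset.sum_nonneg fun a _ => sq_nonneg _
  have h1 : l w = A := by
    rw [hw, map_sum, hA]
    refine Finset.sum_congr rfl fun a _ => ?_
    rw [map_smul, smul_eq_mul, sq]
  have h2 : g x w w = A := by
    have e : ∀ a, g x w (F a) = l (F a) := by
      intro a
      rw [hw, map_sum]
      rw [FunLike.coe_sum, Finset.sum_apply]
      have : ∀ b ∈ (Finset.univ : Finset (Fin n)), (g x (l (F b) • F b)) (F a) =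
          if b = a then l (F b) else 0 := by
        intro b _
        rw [map_smul, FunLike.coe_smul, Pi.smul_apply, hF.orth, smul_eq_mul]
        split_ifs <;> simp
      rw [Finset.sum_congr rfl this]
      simp
    calc g x w w = g x w (∑ a, l (F a) • F a) := by rw [← hw]
      _ = ∑ a, l (F a) * g x w (F a) := by
        rw [map_sum]
        refine Finset.sum_congr rfl fun a _ => ?_
        rw [map_smul, smul_eq_mul]
      _ = A := by
        rw [hA]
        refine Finset.sum_congr rfl fun a _ => ?_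
        rw [e a, sq]
  have h3 := hl w
  rw [h1, nr, h2, abs_of_nonneg hA0] at h3
  rw [← hA]
  have h4 : 0 ≤ √A := Real.sqrt_nonneg A
  have h5 : √A * √A = A := Real.mul_self_sqrt hA0
  by_cases h6 : √A ≤ k
  · calc A = √A * √A := h5.symm
      _ ≤ k * k := mul_le_mul h6 h6 h4 hk
      _ = k ^ 2 := (sq k).symm
  · rw [not_le] at h6
    exfalso
    have h7 : 0 < √A := lt_of_le_of_lt hk h6
    have h8 : k * √A < √A * √A := mul_lt_mul_of_pos_right h6 h7
    rw [h5] at h8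
    linarith

/-- the pointwise estimate -/
theorem lmj_ptw (hNrm : TNrm) (hLbz : TLbz) {n m : ℕ} {g : E n → Bl n} {Γ : E n → Bm n}
    {F : Fin n → E n → E n} {G : E n → Fin n → Fin n → Fin n → ℝ} (hF : Frm g Γ F G)
    (f χ : E n → ℝ) (u : E n → Tn n (m + 1)) (hχ : ContDiff ℝ ∞ χ)
    (hu : ContDiff ℝ ∞ u) (x : E n) (h0 : 0 ≤ χ x) (h1 : χ x ≤ 1) (k : ℝ)
    (hd : ∑ a, (fderiv ℝ χ x (F a x)) ^ 2 ≤ k ^ 2) (p : Tn n (m + 2)) (a : Tn n (m + 1))
    (s ε : ℝ) (hs : 0 < s) (hε : 0 ≤ ε) :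
    q2 (dF F G (fun y => χ y • u y) x) + q2 (dlF F G f (fun y => χ y • u y) x) +
      (m + 1) * ε * q2 (χ x • u x) ≤
    (1 + s) ^ 2 * q2 p + (1 + s) * (1 + 1 / s) * q2 (dF F G u x - p) +
      ((m + 1) * ε + ((1 + 1 / s) * (m + 2) + 2 * (m + 1)) * k ^ 2) * ((1 + s) * q2 a +
        (1 + 1 / s) * q2 (u x - a)) + 2 * q2 (dlF F G f u x) := by
  obtain ⟨a1, a2, -, a4, -, a6, -, -⟩ := hNrm n (m + 1)
  obtain ⟨b1, b2, -, b4, -, -, -, -⟩ := hNrm n (m + 2)
  obtain ⟨c1, c2, -, c4, -, -, c7, -⟩ := hNrm n m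
  obtain ⟨-, l2, -, -⟩ := hLbz n (m + 1) g Γ F G hF
  obtain ⟨-, -, l3, -⟩ := hLbz n m g Γ F G hF
  have hu0 := (a1 (u x)).1
  have hc2 : χ x ^ 2 ≤ 1 := pow_le_one₀ h0 h1
  have hs1 : 0 < 1 / s := by positivity
  have e1 : q2 (dF F G (fun y => χ y • u y) x) ≤ (1 + s) * q2 (dF F G u x) +
      (1 + 1 / s) * ((m + 2) * k ^ 2 * q2 (u x)) := by
    rw [(l2 χ u hχ hu x).2]
    refine le_trans (b4 _ _ s hs) ?_
    rw [b2]
    have q1 := a6 (fun a => fderiv ℝ χ x (F a x)) (u x)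
    have q1' : q2 (wd fun a => (fun a => fderiv ℝ χ x (F a x)) a • u x) ≤
        (m + 2) * k ^ 2 * q2 (u x) := by
      refine le_trans q1 ?_
      push_cast
      have q3 : ((m : ℝ) + 1 + 1) * (∑ a, (fderiv ℝ χ x (F a x)) ^ 2) ≤ (m + 2) * k ^ 2 := by
        have q4 := mul_le_mul_of_nonneg_left hd (show (0 : ℝ) ≤ (m : ℝ) + 2 by positivity)
        linarith
      exact mul_le_mul_of_nonneg_right q3 hu0
    have q5 := mul_le_mul_of_nonneg_left q1' (show (0 : ℝ) ≤ 1 + 1 / s by positivity)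
    have q6 : χ x ^ 2 * q2 (dF F G u x) ≤ q2 (dF F G u x) :=
      mul_le_of_le_one_left (b1 _).1 hc2
    have q7 := mul_le_mul_of_nonneg_left q6 (show (0 : ℝ) ≤ 1 + s by positivity)
    exact add_le_add q7 q5
  have e2 : q2 (dF F G u x) ≤ (1 + s) * q2 p + (1 + 1 / s) * q2 (dF F G u x - p) := by
    have h := b4 p (dF F G u x - p) s hs
    rwa [add_sub_cancel] at h
  have e3 : q2 (dlF F G f (fun y => χ y • u y) x) ≤ 2 * q2 (dlF F G f u x) +
      2 * ((m + 1) * k ^ 2 * q2 (u x)) := by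
    rw [l3 f χ u hχ hu x]
    refine le_trans (c4 _ _ 1 one_pos) ?_
    rw [c2]
    have q1 := c7 (fun a => fderiv ℝ χ x (F a x)) (u x)
    have q1' : q2 (∑ a, (fun a => fderiv ℝ χ x (F a x)) a • ct a (u x)) ≤
        (m + 1) * k ^ 2 * q2 (u x) := by
      refine le_trans q1 ?_
      have q4 := mul_le_mul_of_nonneg_left hd (show (0 : ℝ) ≤ (m : ℝ) + 1 by positivity)
      exact mul_le_mul_of_nonneg_right q4 hu0
    have q6 : χ x ^ 2 * q2 (dlF F G f u x) ≤ q2 (dlF F G f u x) :=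
      mul_le_of_le_one_left (c1 _).1 hc2
    have q8 : (1 : ℝ) + 1 / 1 = 2 := by norm_num
    have q9 : (1 : ℝ) + 1 = 2 := by norm_num
    rw [q8, q9]
    exact add_le_add (mul_le_mul_of_nonneg_left q6 (by norm_num))
      (mul_le_mul_of_nonneg_left q1' (by norm_num))
  have e4 : q2 (χ x • u x) ≤ q2 (u x) := by
    rw [a2]
    exact mul_le_of_le_one_left hu0 hc2
  have e5 : q2 (u x) ≤ (1 + s) * q2 a + (1 + 1 / s) * q2 (u x - a) := by
    have h := a4 a (u x - a) s hs
    rwa [add_sub_cancel] at h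
  have e6 := mul_le_mul_of_nonneg_left e2 (show (0 : ℝ) ≤ 1 + s by positivity)
  have e7 : 0 ≤ (m + 1) * ε + ((1 + 1 / s) * (m + 2) + 2 * (m + 1)) * k ^ 2 := by positivity
  have e8 := mul_le_mul_of_nonneg_left e5 e7
  have e9 := mul_le_mul_of_nonneg_left e4 (show (0 : ℝ) ≤ (m + 1) * ε by positivity)
  linarith [e1, e3, e6, e8, e9]

/-- local integrability of `q2 (u - η)` -/
theorem lmj_l2 {n j : ℕ} (η u : E n → Tn n j) (w : E n → ℝ) (hη : L2t η) (hu : Continuous u)
    (hw : Continuous w) (L : Set (E n)) (hL : IsCompact L) :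
    IntegrableOn (fun x => q2 (u x - η x) * w x) L := by
  have h1 : ∀ I, IntegrableOn (fun x => (u x I - η x I) ^ 2) L := by
    intro I
    obtain ⟨m1, m2⟩ := hη I
    have c1 : Continuous (fun x => u x I) := (continuous_apply I).comp hu
    have q1 : MemLp (fun x => η x I) 2 (volume.restrict L) :=
      (memLp_two_iff_integrable_sq (m1.mono_measure Measure.restrict_le_self)).2 (m2 L hL)
    have q2 : MemLp (fun x => u x I) 2 (volume.restrict L) :=
      (memLp_two_iff_integrable_sq c1.aestronglyMeasurable).2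
        ((c1.pow 2).continuousOn.integrableOn_compact hL)
    exact (q2.sub q1).integrable_sq
  have h2 : IntegrableOn (fun x => q2 (u x - η x)) L := by
    have h3 : (fun x => q2 (u x - η x)) =
        fun x => (∑ I, (u x I - η x I) ^ 2) / (j.factorial : ℝ) := by
      funext x
      unfold q2 ipt
      refine congrArg (fun z => z / (j.factorial : ℝ)) (Finset.sum_congr rfl fun I _ => ?_)
      rw [Pi.sub_apply, sq]
    rw [h3]
    exact (integrable_finsetSum _ fun I _ => h1 I).div_const _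
  exact h2.mul_continuousOn hw.continuousOn hL

theorem hLmj (hDlv : StDlv) (hNrm : TNrm) (hDer : TDer) (hLbz : TLbz) : TLmj := by
  intro n m g Γ F G hg hc hF hcut K0 Λ hK0 hΛ hB f ε hf hf0 hε hH P η hP hη hapx hS hT K hK κ hκ
  obtain ⟨hv1, hv2, -⟩ := hDlv n g Γ hg hc
  have n1 : ∀ t : Tn n (m + 1), 0 ≤ q2 t := fun t => ((hNrm n (m + 1)).1 t).1
  have n2 : ∀ t : Tn n (m + 2), 0 ≤ q2 t := fun t => ((hNrm n (m + 2)).1 t).1
  have n0 : ∀ t : Tn n m, 0 ≤ q2 t := fun t => ((hNrm n m).1 t).1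
  have hvc : Continuous (vol g) := hv1.continuous
  have hW : Continuous (fun x => wt g f x) :=
    (Real.continuous_exp.comp hf.continuous.neg).mul hvc
  have hWpos : ∀ x, 0 ≤ wt g f x := fun x => (mul_pos (Real.exp_pos _) (hv2 x)).le
  have hWle : ∀ x, wt g f x ≤ vol g x := by
    intro x
    have h1 : Real.exp (-f x) ≤ 1 := Real.exp_le_one_iff.2 (by linarith [hf0 x])
    have h2 := (hv2 x).le
    unfold wt
    nlinarith
  generalize hSd : ∫ x, q2 (P x) * wt g f x = S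
  generalize hTd : ∫ x, q2 (η x) * wt g f x = T
  generalize hT0d : ∫ x in K0, q2 (η x) * wt g f x = T0
  have hS0 : 0 ≤ S := by
    rw [← hSd]
    exact integral_nonneg fun x => mul_nonneg (n2 _) (hWpos x)
  have hT0 : 0 ≤ T := by
    rw [← hTd]
    exact integral_nonneg fun x => mul_nonneg (n1 _) (hWpos x)
  have hT00 : 0 ≤ T0 := by
    rw [← hT0d]
    exact integral_nonneg fun x => mul_nonneg (n1 _) (hWpos x)
  obtain ⟨s, hs0, hs1, hs2⟩ := lmj_pick (3 * S + (m + 1) * ε * T + Λ * T0) (κ / 3)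
    (by positivity) (by positivity)
  obtain ⟨t, ht0, ht1, ht2⟩ := lmj_pick
    (((1 + 1 / s) * (m + 2) + 2 * (m + 1)) * ((1 + s) * T)) (κ / 3) (by positivity)
    (by positivity)
  obtain ⟨χ, hχ, hχ01, hχ1, hχd⟩ := hcut K hK t ht0
  obtain ⟨L, hLd⟩ : ∃ L, L = K ∪ K0 ∪ tsupport χ := ⟨_, rfl⟩
  have hL : IsCompact L := by
    rw [hLd]
    exact (hK.union hK0).union hχ.2
  have hKL : K ⊆ L := by
    rw [hLd]
    exact fun x hx => Or.inl (Or.inl hx)
  have hK0L : K0 ⊆ L := by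
    rw [hLd]
    exact fun x hx => Or.inl (Or.inr hx)
  obtain ⟨c₁, hc₁⟩ : ∃ c₁ : ℝ, c₁ = (m + 1) * ε +
    ((1 + 1 / s) * (m + 2) + 2 * (m + 1)) * t ^ 2 := ⟨_, rfl⟩
  have hc₁0 : 0 ≤ c₁ := by
    rw [hc₁]
    positivity
  obtain ⟨κ₂, hk0, hk1, hk2⟩ := lmj_pick ((1 + s) * (1 + 1 / s) + c₁ * (1 + 1 / s) + 2 +
    Λ * (1 + 1 / s) + 1) (κ / 3) (by positivity) (by positivity)
  obtain ⟨u, hu, hua, p1, p2, p3⟩ := hapx L hL κ₂ hk0
  have hM : 0 ≤ (1 + s) * (1 + 1 / s) + c₁ * (1 + 1 / s) + 2 + Λ * (1 + 1 / s) := by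
    positivity
  have hk3 : κ₂ ≤ κ := by linarith [mul_nonneg hk0.le hM]
  have J4 : IntegrableOn (fun x => q2 (u x - η x) * vol g x) L :=
    lmj_l2 η u (vol g) hη hu.continuous hvc L hL
  have mono : ∀ A : Set (E n), A ⊆ L → ∫ x in A, q2 (u x - η x) * vol g x ≤ κ₂ := by
    intro A hA
    refine le_trans ?_ p1
    refine setIntegral_mono_set J4 (ae_of_all _ fun x => ?_) (ae_of_all _ fun x hx => ?_)
    · exact mul_nonneg (n1 _) (hv2 x).le
    · exact hA hx
  refine ⟨u, hu, hua, (mono K hKL).trans hk3, ?_⟩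
  -- the cut-off form
  obtain ⟨v, hvd⟩ : ∃ v : E n → Tn n (m + 1), v = fun y => χ y • u y := ⟨_, rfl⟩
  have hv : ContDiff ℝ ∞ v := by
    rw [hvd]
    exact hχ.1.smul hu
  have hva : Al v := by
    intro x I σ
    rw [hvd]
    simp only [Pi.smul_apply, smul_eq_mul]
    rw [hua x I σ]
    ring
  have hsupp : ∀ x, x ∉ tsupport χ → x ∉ tsupport v := by
    intro x hx h
    apply hx
    rw [hvd] at h
    exact tsupport_smul_subset_left χ u h
  have hvcs : HasCompactSupport v := by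
    rw [hvd]
    exact hχ.2.smul_right
  obtain ⟨d1, -, -, -, -, -, -, d8⟩ := hDer n (m + 1) g Γ F G hF
  obtain ⟨-, d2, -, -, -, -, -, -⟩ := hDer n m g Γ F G hF
  obtain ⟨-, l2, -, -⟩ := hLbz n (m + 1) g Γ F G hF
  have z1 : ∀ x, x ∉ tsupport χ → v x = 0 := fun x hx => (d8 v x (hsupp x hx)).1
  have z2 : ∀ x, x ∉ tsupport χ → ∀ a, cv F G v x a = 0 :=
    fun x hx => (d8 v x (hsupp x hx)).2.1
  have z3 : ∀ x, x ∉ tsupport χ → dF F G v x = 0 := fun x hx => (d8 v x (hsupp x hx)).2.2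
  have z4 : ∀ x, x ∉ tsupport χ → dlF F G f v x = 0 := by
    intro x hx
    unfold dlF
    rw [z1 x hx]
    refine Finset.sum_eq_zero fun a _ => ?_
    rw [z2 x hx a]
    funext I
    simp [ct]
  have bo := hB f ε hf hH v hv hva hvcs
  have cN : Continuous (fun x => NF F G v x) := by
    unfold NF
    exact continuous_finsetSum _ fun a _ => lmj_q2_cont.comp ((d1 v hv).1 a).continuous
  have cD : Continuous (fun x => q2 (dF F G v x)) := lmj_q2_cont.comp (d1 v hv).2.continuous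
  have cI : Continuous (fun x => q2 (v x)) := lmj_q2_cont.comp hv.continuous
  have cdl : Continuous (fun x => q2 (dlF F G f v x)) :=
    lmj_q2_cont.comp (d2 f v hf hv).continuous
  have iN : Integrable (fun x => NF F G v x * wt g f x) := by
    refine Continuous.integrable_of_hasCompactSupport (cN.mul hW)
      (HasCompactSupport.intro (K := tsupport χ) hχ.2 (fun x hx => ?_))
    have : NF F G v x = 0 := by
      unfold NF
      refine Finset.sum_eq_zero fun a _ => ?_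
      rw [z2 x hx a, lmj_q2_zero]
    rw [this, zero_mul]
  have iD : Integrable (fun x => (q2 (dF F G v x) + q2 (dlF F G f v x)) * wt g f x) := by
    refine Continuous.integrable_of_hasCompactSupport ((cD.add cdl).mul hW)
      (HasCompactSupport.intro (K := tsupport χ) hχ.2 (fun x hx => ?_))
    rw [z3 x hx, z4 x hx, lmj_q2_zero, lmj_q2_zero]
    ring
  have iI : Integrable (fun x => q2 (v x) * wt g f x) := by
    refine Continuous.integrable_of_hasCompactSupport (cI.mul hW)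
      (HasCompactSupport.intro (K := tsupport χ) hχ.2 (fun x hx => ?_))
    rw [z1 x hx, lmj_q2_zero, zero_mul]
  -- on K
  have s1 : ∫ x in K, NF F G u x * wt g f x = ∫ x in K, NF F G v x * wt g f x := by
    refine setIntegral_congr_fun hK.measurableSet (fun x hx => ?_)
    have hx1 := hχ1 x hx
    have hx2 : fderiv ℝ χ x = 0 := by
      refine IsLocalMax.fderiv_eq_zero (Filter.Eventually.of_forall fun y => ?_)
      rw [hx1]; exact (hχ01 y).2
    have hx3 : ∀ a, cv F G v x a = cv F G u x a := by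
      intro a
      rw [hvd, (l2 χ u hχ.1 hu x).1 a, hx1, hx2]
      simp
    simp only [NF, hx3]
  have s2 : ∫ x in K, NF F G v x * wt g f x ≤ ∫ x, NF F G v x * wt g f x := by
    refine setIntegral_le_integral iN (ae_of_all _ fun x => ?_)
    refine mul_nonneg ?_ (hWpos x)
    unfold NF
    exact Finset.sum_nonneg fun a _ => n1 _
  have s3 : (∫ x, (q2 (dF F G v x) + q2 (dlF F G f v x)) * wt g f x) +
      (m + 1) * ε * (∫ x, q2 (v x) * wt g f x) =
      ∫ x in L, (q2 (dF F G v x) + q2 (dlF F G f v x) + (m + 1) * ε * q2 (v x)) *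
        wt g f x := by
    rw [← integral_const_mul, ← integral_add iD (iI.const_mul _)]
    rw [← setIntegral_eq_integral_of_forall_compl_eq_zero (s := L) (fun x hx => ?_)]
    · refine integral_congr_ae (ae_of_all _ fun x => ?_)
      simp only
      ring
    · have hx' : x ∉ tsupport χ := fun h => hx (by rw [hLd]; exact Or.inr h)
      rw [z1 x hx', z3 x hx', z4 x hx']
      simp only [lmj_q2_zero]
      ring
  -- the integrals over L
  have J1 : IntegrableOn (fun x => q2 (P x) * wt g f x) L := hS.integrableOn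
  have cD' : Continuous (fun x => q2 (dF F G u x - P x)) :=
    lmj_q2_cont.comp ((d1 u hu).2.continuous.sub hP)
  have J2 : IntegrableOn (fun x => q2 (dF F G u x - P x) * vol g x) L :=
    (cD'.mul hvc).continuousOn.integrableOn_compact hL
  have J3 : IntegrableOn (fun x => q2 (η x) * wt g f x) L := hT.integrableOn
  have cdl' : Continuous (fun x => q2 (dlF F G f u x)) :=
    lmj_q2_cont.comp (d2 f u hf hu).continuous
  have J5 : IntegrableOn (fun x => q2 (dlF F G f u x) * vol g x) L :=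
    (cdl'.mul hvc).continuousOn.integrableOn_compact hL
  obtain ⟨iG, eG⟩ := lmj_int5 J1 J2 J3 J4 J5 ((1 + s) ^ 2) ((1 + s) * (1 + 1 / s))
    (c₁ * (1 + s)) (c₁ * (1 + 1 / s)) 2
  have iLv : IntegrableOn (fun x => (q2 (dF F G v x) + q2 (dlF F G f v x) +
      (m + 1) * ε * q2 (v x)) * wt g f x) L :=
    (((cD.add cdl).add (continuous_const.mul cI)).mul hW).continuousOn.integrableOn_compact hL
  have s5 := setIntegral_mono_on iLv iG hL.measurableSet (fun x hx => ?_)
  rotate_left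
  · have h := lmj_ptw hNrm hLbz hF f χ u hχ.1 hu x (hχ01 x).1 (hχ01 x).2 t
      (lmj_grad (hF.onb x) (fderiv ℝ χ x) t ht0.le (hχd x)) (P x) (η x) s ε hs0 hε
    rw [← hc₁] at h
    have h1 := mul_le_mul_of_nonneg_right h (hWpos x)
    have r2 : q2 (dF F G u x - P x) * wt g f x ≤ q2 (dF F G u x - P x) * vol g x :=
      mul_le_mul_of_nonneg_left (hWle x) (n2 _)
    have r4 : q2 (u x - η x) * wt g f x ≤ q2 (u x - η x) * vol g x :=
      mul_le_mul_of_nonneg_left (hWle x) (n1 _)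
    have r5 : q2 (dlF F G f u x) * wt g f x ≤ q2 (dlF F G f u x) * vol g x :=
      mul_le_mul_of_nonneg_left (hWle x) (n0 _)
    have r2' := mul_le_mul_of_nonneg_left r2
      (show (0 : ℝ) ≤ (1 + s) * (1 + 1 / s) by positivity)
    have r4' := mul_le_mul_of_nonneg_left r4 (show (0 : ℝ) ≤ c₁ * (1 + 1 / s) by positivity)
    have r5' := mul_le_mul_of_nonneg_left r5 (show (0 : ℝ) ≤ 2 by norm_num)
    have e0 : v x = χ x • u x := by rw [hvd]
    rw [e0, hvd]
    refine le_trans h1 ?_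
    have e1 : ((1 + s) ^ 2 * q2 (P x) + (1 + s) * (1 + 1 / s) * q2 (dF F G u x - P x) +
        c₁ * ((1 + s) * q2 (η x) + (1 + 1 / s) * q2 (u x - η x)) + 2 * q2 (dlF F G f u x)) *
        wt g f x = (1 + s) ^ 2 * (q2 (P x) * wt g f x) +
        (1 + s) * (1 + 1 / s) * (q2 (dF F G u x - P x) * wt g f x) +
        c₁ * (1 + s) * (q2 (η x) * wt g f x) +
        c₁ * (1 + 1 / s) * (q2 (u x - η x) * wt g f x) +
        2 * (q2 (dlF F G f u x) * wt g f x) := by ring
    rw [e1]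
    linarith
  -- the integral over K0
  have q0 : ∫ x in K0, q2 (v x) * wt g f x ≤ (1 + s) * T0 + (1 + 1 / s) * κ₂ := by
    obtain ⟨iH, eH⟩ := lmj_int2 (μ := volume.restrict K0) (hT.integrableOn (s := K0))
      (J4.mono_set hK0L) (1 + s) (1 + 1 / s)
    have w1 : IntegrableOn (fun x => q2 (v x) * wt g f x) K0 := iI.integrableOn
    have w2 := setIntegral_mono_on w1 iH hK0.measurableSet (fun x hx => ?_)
    · rw [eH, hT0d] at w2
      refine le_trans w2 ?_
      have w3 := mul_le_mul_of_nonneg_left (mono K0 hK0L)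
        (show (0 : ℝ) ≤ 1 + 1 / s by positivity)
      linarith
    · obtain ⟨-, a2, -, a4, -⟩ := hNrm n (m + 1)
      have e0 : v x = χ x • u x := by rw [hvd]
      have e4 : q2 (v x) ≤ q2 (u x) := by
        rw [e0, a2]
        exact mul_le_of_le_one_left (n1 _) (pow_le_one₀ (hχ01 x).1 (hχ01 x).2)
      have e5 : q2 (u x) ≤ (1 + s) * q2 (η x) + (1 + 1 / s) * q2 (u x - η x) := by
        have h := a4 (η x) (u x - η x) s hs0
        rwa [add_sub_cancel] at h
      have h1 := mul_le_mul_of_nonneg_right (e4.trans e5) (hWpos x)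
      have r4 : q2 (u x - η x) * wt g f x ≤ q2 (u x - η x) * vol g x :=
        mul_le_mul_of_nonneg_left (hWle x) (n1 _)
      have r4' := mul_le_mul_of_nonneg_left r4 (show (0 : ℝ) ≤ 1 + 1 / s by positivity)
      refine le_trans h1 ?_
      have e1 : ((1 + s) * q2 (η x) + (1 + 1 / s) * q2 (u x - η x)) * wt g f x =
        (1 + s) * (q2 (η x) * wt g f x) + (1 + 1 / s) * (q2 (u x - η x) * wt g f x) := by
        ring
      rw [e1]
      linarith
  have b1 : ∫ x in L, q2 (P x) * wt g f x ≤ S := by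
    rw [← hSd]
    exact setIntegral_le_integral hS (ae_of_all _ fun x => mul_nonneg (n2 _) (hWpos x))
  have b3 : ∫ x in L, q2 (η x) * wt g f x ≤ T := by
    rw [← hTd]
    exact setIntegral_le_integral hT (ae_of_all _ fun x => mul_nonneg (n1 _) (hWpos x))
  rw [eG] at s5
  have m1 := mul_le_mul_of_nonneg_left b1 (show (0 : ℝ) ≤ (1 + s) ^ 2 by positivity)
  have m2 := mul_le_mul_of_nonneg_left p2
    (show (0 : ℝ) ≤ (1 + s) * (1 + 1 / s) by positivity)
  have m3 := mul_le_mul_of_nonneg_left b3 (show (0 : ℝ) ≤ c₁ * (1 + s) by positivity)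
  have m4 := mul_le_mul_of_nonneg_left p1 (show (0 : ℝ) ≤ c₁ * (1 + 1 / s) by positivity)
  have m5 := mul_le_mul_of_nonneg_left p3 (show (0 : ℝ) ≤ 2 by norm_num)
  have m6 := mul_le_mul_of_nonneg_left q0 hΛ
  have d1' : (1 + s) ^ 2 * S ≤ S + 3 * s * S := by
    linarith [mul_nonneg (mul_nonneg hs0.le hS0) (sub_nonneg.2 hs1)]
  have d2' : ((1 + 1 / s) * (m + 2) + 2 * (m + 1)) * t ^ 2 * (1 + s) * T ≤
      t * (((1 + 1 / s) * (m + 2) + 2 * (m + 1)) * ((1 + s) * T)) := by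
    have h1 : t ^ 2 ≤ t := by linarith [mul_nonneg ht0.le (sub_nonneg.2 ht1)]
    have h2 : 0 ≤ ((1 + 1 / s) * (m + 2) + 2 * (m + 1)) * ((1 + s) * T) := by positivity
    linarith [mul_le_mul_of_nonneg_right h1 h2]
  have d3' : c₁ * (1 + s) * T = (m + 1) * ε * T + s * ((m + 1) * ε * T) +
      ((1 + 1 / s) * (m + 2) + 2 * (m + 1)) * t ^ 2 * (1 + s) * T := by
    rw [hc₁]
    ring
  have f1 : (1 + s) * (1 + 1 / s) * κ₂ + c₁ * (1 + 1 / s) * κ₂ + 2 * κ₂ +
      Λ * ((1 + 1 / s) * κ₂) ≤ κ / 3 := by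
    have f2 : κ₂ * ((1 + s) * (1 + 1 / s) + c₁ * (1 + 1 / s) + 2 + Λ * (1 + 1 / s) + 1) =
        (1 + s) * (1 + 1 / s) * κ₂ + c₁ * (1 + 1 / s) * κ₂ + 2 * κ₂ +
        Λ * ((1 + 1 / s) * κ₂) + κ₂ := by ring
    rw [f2] at hk2
    linarith
  rw [s1]
  refine le_trans s2 (le_trans bo ?_)
  rw [s3]
  linarith [s5, m1, m2, m3, m4, m5, m6, d1', d2', d3', f1, hs2, ht2]

end Pool.Agent.Helper12.DSH
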